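import Pool.Agent.Run7.h753.TW.Fld
import Pool.Agent.Run7.h753.TW.Cnt

/-!
# Finite `p`-class field towers for the fields ramified at three tame primes

Let `p` be an odd prime and let `a`, `b`, `c` be distinct primes which are `1` modulo `p` and not
`1` modulo `p ^ 2`. Let `λ l j` be the linking numbers and `u l = (l - 1) / p` modulo `p`. Suppose
that `Δ = λ a c * λ b a * λ c b - λ a b * λ b c * λ c a` is not zero, and put
`s a = u c * λ b a + u b * λ c a`, `t a = u c * λ b a - u b * λ c a` and cyclically.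

* If `Γ = s a * s b * t c + s b * s c * t a + s c * s a * t b ≠ 0`, then the Galois group `G` of the
  maximal `p`-extension of `ℚ` unramified outside `a`, `b`, `c` is metabelian of order at most
  `p ^ 8`.
* If one of `s a`, `s b`, `s c` is not zero, then `G` has derived length at most three and order at
  most `p ^ 9`.

So every number field `K` in this extension has a finite `p`-class field tower, of length at most
two (three), and `G_{K,∅}(p)` has order at most `p ^ 8 / [K : ℚ]` (`p ^ 9 / [K : ℚ]`). All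
continuous, residually unipotent, everywhere unramified representations of the absolute Galois group
of `K`, of any dimension, over Noetherian local rings of residue characteristic `p`, factor through
this finite group. The condition `Δ Γ ≠ 0` holds for most triples of primes.

That `G` is finite, of order at most `p ^ 36`, is the starting result
`MP_f68ac8_nt.ThreeTamePrimes`. New are the bounds for the order and the derived length, and that
they hold for most triples.

Proof. Let `G` be a finite quotient. It is powerful as `Δ ≠ 0` (this is from the starting result),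
generated by three elements. Let `F j` be the lower `p`-series and `W j = F j / F (j + 1)`; the
`p`-power maps `π : W j → W (j + 1)` are onto. As `u l ≠ 0` and inertia generates, the commutator
map `Λ² W j' → W (j + 1)` is onto, where `W j'` is `W j` written as a quotient of `W 0`. So the
dimensions `3, ≤ 3, ...` decrease in the steps `2 → 1 → 0`. If `W 1` has dimension three, the
commutators give an alternating algebra on `W 0`, and by the Hall-Witt identity its Jacobi element
`J` and the products of all elements with `J` vanish in `W 2` and `W 3`. In terms of `λ` and `u` one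
finds `J ≠ 0` if one of `s a`, `s b`, `s c` is not zero, and that `J` and its products generate if
`Γ ≠ 0`. So the dimensions are at most `3, 3, 2, 1, 0` and `3, 3, 2, 0`. Finally
`[F 1, F 1] ≤ F 3` and `[F 3, F 3] ≤ F 7`. For `K ≠ ℚ` one takes the intersection of the conjugates
of the kernel. The polynomial `u a u b u c Δ Γ` has degree `12` and is not zero modulo `p`.
-/

set_option autoImplicit false

open NumberField IsLocalRing

namespace Pool.Agent.Results.MP_ca71b5_nt.FiniteTowersTriples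

open Finset Filter
open Pool.Agent.Q202.RT Pool.Agent.Q202.QT
open Pool.Agent.W569.TG (lk)
open Run7.h753.TW (Bad bad_scInv GoodL)

/-- the absolute Galois group of `ℚ`, with the Krull topology -/
abbrev AbsGal : Type := Gal(AlgebraicClosure ℚ/ℚ)

/-- `τ` lies in the inertia group at the ideal `P` of the ring of all algebraic integers. -/
def InInertia (P : Ideal (𝓞 (AlgebraicClosure ℚ))) (τ : AbsGal) : Prop :=
  ∀ x : 𝓞 (AlgebraicClosure ℚ), τ • x - x ∈ P

/-- The homomorphism `f` from the subgroup `H` of the absolute Galois group of `ℚ` is trivial on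
the inertia groups in `H` at all maximal ideals which contain no element of `T`. -/
def UnramifiedOutside (T : Set ℕ) {H : Subgroup AbsGal} {E : Type} [Group E] (f : H →* E) : Prop :=
  ∀ P : Ideal (𝓞 (AlgebraicClosure ℚ)), P.IsMaximal →
    (∀ l ∈ T, (l : 𝓞 (AlgebraicClosure ℚ)) ∉ P) → ∀ τ : H, InInertia P τ → f τ = 1

/-- The reductions of all `ρ g - 1` are nilpotent. -/
def ResiduallyUnipotent {H : Subgroup AbsGal} {n : ℕ} {A : Type} [CommRing A] [IsLocalRing A]
    (ρ : H →* GL (Fin n) A) : Prop :=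
  ∀ g, ∃ M : ℕ, ∀ i j, (((ρ g : Matrix (Fin n) (Fin n) A) - 1) ^ M) i j ∈ maximalIdeal A

/-- `K` is contained in a Galois extension `L` of `ℚ` of `p`-power degree which is unramified at all
primes not in `T`. -/
def InPExtension (p : ℕ) (T : Set ℕ) (K : IntermediateField ℚ (AlgebraicClosure ℚ)) : Prop :=
  ∃ L : IntermediateField ℚ (AlgebraicClosure ℚ), K ≤ L ∧ IsGalois ℚ L ∧
    (∃ k : ℕ, Module.finrank ℚ L = p ^ k) ∧
    ∀ P : Ideal (𝓞 (AlgebraicClosure ℚ)), P.IsMaximal →
      (∀ l ∈ T, (l : 𝓞 (AlgebraicClosure ℚ)) ∉ P) → ∀ τ, InInertia P τ → τ ∈ L.fixingSubgroup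

/-- `FiniteTowers p B d T`: let `K` be a number field in a Galois extension of `ℚ` of `p`-power
degree unramified outside `T`. Then there is an open normal subgroup `N` of the absolute Galois
group `G` of `K` such that `(G : N) [K : ℚ] ≤ B`, the derived length of `G / N` is at most `d`, and
all homomorphisms with open kernel from `G` to finite `p`-groups and all continuous residually
unipotent representations of `G` over Noetherian local rings with `p` in the maximal ideal are
trivial on `N` if they are unramified outside `T`, in particular if they are everywhere unramified.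
So the Galois group of the `p`-class field tower of `K` is a quotient of `G / N`: it has at most
`B / [K : ℚ]` elements and its derived length is at most `d`. -/
def FiniteTowers (p B d : ℕ) (T : Set ℕ) : Prop :=
  ∀ K : IntermediateField ℚ (AlgebraicClosure ℚ), InPExtension p T K →
    ∃ N : Subgroup K.fixingSubgroup, N.Normal ∧ IsOpen (N : Set K.fixingSubgroup) ∧
      N.index * Module.finrank ℚ K ≤ B ∧ derivedSeries K.fixingSubgroup d ≤ N ∧
      (∀ (E : Type) [Group E] [Finite E] (f : K.fixingSubgroup →* E), IsPGroup p E →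
        IsOpen (f.ker : Set K.fixingSubgroup) → UnramifiedOutside T f → ∀ g ∈ N, f g = 1) ∧
      ∀ (n : ℕ) (A : Type) [CommRing A] [IsLocalRing A] [IsNoetherianRing A] [TopologicalSpace A],
        IsAdic (maximalIdeal A) → (p : A) ∈ maximalIdeal A →
        ∀ ρ : K.fixingSubgroup →* GL (Fin n) A, Continuous ρ → ResiduallyUnipotent ρ →
          UnramifiedOutside T ρ → ∀ g ∈ N, ρ g = 1

/-- The linking number `λ l j` of the distinct primes `l` and `j`: the value of the homomorphism
`χ j : (ℤ/j)ˣ → ℤ/p` at the class of `l` (and `0` if `l` and `j` are not coprime). -/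
noncomputable def linking {p : ℕ} (χ : ∀ j : ℕ, (ZMod j)ˣ →* Multiplicative (ZMod p))
    (l j : ℕ) : ZMod p :=
  open Classical in if h : Nat.Coprime l j then
    Multiplicative.toAdd (χ j (ZMod.unitOfCoprime l h)) else 0

/-- The class of `(l - 1) / p` modulo `p`. -/
def level (p l : ℕ) : ZMod p := (((l - 1) / p : ℕ) : ZMod p)

/-- `u j * λ i k + u i * λ j k` -/
noncomputable def sym {p : ℕ} (χ : ∀ j : ℕ, (ZMod j)ˣ →* Multiplicative (ZMod p))
    (i j k : ℕ) : ZMod p :=
  level p j * linking χ i k + level p i * linking χ j k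

/-- `u j * λ i k - u i * λ j k` -/
noncomputable def alt {p : ℕ} (χ : ∀ j : ℕ, (ZMod j)ˣ →* Multiplicative (ZMod p))
    (i j k : ℕ) : ZMod p :=
  level p j * linking χ i k - level p i * linking χ j k

/-- `λ a c * λ b a * λ c b - λ a b * λ b c * λ c a` -/
noncomputable def Delta {p : ℕ} (χ : ∀ j : ℕ, (ZMod j)ˣ →* Multiplicative (ZMod p))
    (a b c : ℕ) : ZMod p :=
  linking χ a c * linking χ b a * linking χ c b - linking χ a b * linking χ b c * linking χ c a

/-- The form `Γ` of degree six in the linking numbers and the levels. -/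
noncomputable def Gamma {p : ℕ} (χ : ∀ j : ℕ, (ZMod j)ˣ →* Multiplicative (ZMod p))
    (a b c : ℕ) : ZMod p :=
  sym χ b c a * sym χ c a b * alt χ a b c + sym χ c a b * sym χ a b c * alt χ b c a +
    sym χ a b c * sym χ b c a * alt χ c a b

open Classical in
/-- The primes `q ≤ x` with `p ∣ q - 1`. -/
noncomputable def Pr (p x : ℕ) : Finset ℕ := (range (x + 1)).filter fun q => q.Prime ∧ p ∣ q - 1

open Classical in
/-- `Most p δ R m T`: for all primes `q₁ ≡ 1 mod p`, `q₁ ∉ T`, but a proportion of at most `δ`, for all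
primes `q₂ ≡ 1 mod p`, `q₂ ∉ T ∪ {q₁}`, but a proportion of at most `δ`, …, for all primes
`q_m ≡ 1 mod p`, `q_m ∉ T ∪ {q₁, …, q_{m-1}}`, but a proportion of at most `δ`, the set
`T ∪ {q₁, …, q_m}` has the property `R`. -/
def Most (p : ℕ) (δ : ℝ) (R : Set ℕ → Prop) : ℕ → Set ℕ → Prop
  | 0, T => R T
  | m + 1, T => ∀ ε : ℝ, 0 < ε → ∀ᶠ x : ℕ in atTop, (1 - δ - ε) * ((Pr p x).card : ℝ) ≤
      (((Pr p x).filter fun q => q ∉ T ∧ Most p δ R m (insert q T)).card : ℝ)

theorem Pr_eq (p x : ℕ) [Fact p.Prime] : Pr p x = P1 p x := by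
  ext l
  rw [mem_P1, Pr, mem_filter, mem_range]
  constructor
  · rintro ⟨h1, h2, h3⟩
    exact ⟨by omega, h2, h3⟩
  · rintro ⟨h1, h2, h3⟩
    exact ⟨by omega, h2, h3⟩

theorem exists_restrict {k Ω : Type} [Field k] [Field Ω] [Algebra k Ω]
    (L : IntermediateField k Ω) (hG : IsGalois k L) {p m : ℕ} (hp : p.Prime)
    (hm : Module.finrank k L = p ^ m) : ∃ (E0 : Type) (_ : Group E0) (_ : Finite E0)
      (F : Gal(Ω/k) →* E0), IsPGroup p E0 ∧ F.ker = L.fixingSubgroup := by
  have hfd : FiniteDimensional k L := by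
    apply FiniteDimensional.of_finrank_pos
    rw [hm]
    exact pow_pos hp.pos m
  refine ⟨Gal(L/k), inferInstance, inferInstance, AlgEquiv.restrictNormalHom L, ?_,
    IntermediateField.restrictNormalHom_ker L⟩
  have : Fact p.Prime := ⟨hp⟩
  refine IsPGroup.of_card (n := m) ?_
  rw [IsGalois.card_aut_eq_finrank, hm]

theorem finrank_idx {k Ω : Type} [Field k] [Field Ω] [Algebra k Ω] (hG : IsGalois k Ω)
    (K : IntermediateField k Ω) : Module.finrank k K = K.fixingSubgroup.index :=
  IntermediateField.finrank_eq_fixingSubgroup_index Ω K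

theorem fixing_open {k Ω : Type} [Field k] [Field Ω] [Algebra k Ω]
    (L : IntermediateField k Ω) {p m : ℕ} (hp : p.Prime)
    (hm : Module.finrank k L = p ^ m) : IsOpen (L.fixingSubgroup : Set Gal(Ω/k)) := by
  have hfd : FiniteDimensional k L := by
    apply FiniteDimensional.of_finrank_pos
    rw [hm]
    exact pow_pos hp.pos m
  exact L.fixingSubgroup_isOpen

section
variable {p : ℕ} [hp : Fact p.Prime]

theorem towers_of {χ : ∀ j : ℕ, (ZMod j)ˣ →* Multiplicative (ZMod p)}
    (t : Pool.Agent.N829.PW.Tri p χ) {B d : ℕ}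
    (h : ∀ (E : Type) [Group E] [Finite E], IsPGroup p E →
      ∀ f : Pool.Agent.W569.FM.GF ℚ →* E, Function.Surjective f →
        IsOpen (f.ker : Set (Pool.Agent.W569.FM.GF ℚ)) →
        Pool.Agent.N829.PW.Ur p (Pool.Agent.N829.PW.SQ p t.T) f →
        Nat.card E ≤ B ∧ derivedSeries E d = ⊥) : FiniteTowers p B d (Set.range t.l) := by
  rintro K ⟨L, hKL, hGal, ⟨k, hk⟩, hL⟩
  have hT : ∀ l, l ∈ t.T ↔ l ∈ Set.range t.l := by
    intro l
    show l ∈ Finset.univ.image t.l ↔ _
    simp
  have hcond : ∀ P : Ideal (𝓞 (AlgebraicClosure ℚ)), P.IsMaximal → ∀ l : ℕ, l.Prime →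
      (l : 𝓞 (AlgebraicClosure ℚ)) ∈ P → (l = p ∨ (p ∣ l - 1 ∧ l ∉ t.T)) →
      ∀ l' ∈ Set.range t.l, (l' : 𝓞 (AlgebraicClosure ℚ)) ∉ P := by
    rintro P hP l hl hlP hc _ ⟨i, rfl⟩ h'
    have e : t.l i = l := Pool.Agent.N829.PW.prime_unique hP (t.hl i).1 hl h' hlP
    rcases hc with hc | hc
    · exact t.ne i (e.trans hc)
    · exact hc.2 (e ▸ (t.mem i).1)
  have hG0 : @IsGalois ℚ _ (AlgebraicClosure ℚ) _ (AlgebraicClosure.instAlgebra ℚ) := inferInstance
  have hG1 : IsGalois ℚ (AlgebraicClosure ℚ) := hG0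
  obtain ⟨E0, _, _, F, hE0, hker⟩ := exists_restrict L hGal hp.out hk
  have hopen := fixing_open L hp.out hk
  have hFo : IsOpen (F.ker : Set AbsGal) := by
    rw [hker]
    exact hopen
  have hFK : F.ker ≤ K.fixingSubgroup := by
    rw [hker]
    exact IntermediateField.fixingSubgroup_le hKL
  obtain ⟨N, h1, h2, h3, h4, h5, h6⟩ := Run7.h753.TW.tower (p := p) (T := t.T) h hE0 F
    hFo
    (Pool.Agent.N829.PW.ur_of _ fun P hP l hl hlP hc τ hτ => by
      have h := hL P hP (hcond P hP l hl hlP hc) τ hτ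
      rw [← hker] at h
      exact h) K.fixingSubgroup
    hFK
  refine ⟨N, h1, h2, ?_, h4, ?_, ?_⟩
  · have e : Module.finrank ℚ K = K.fixingSubgroup.index :=
      finrank_idx hG1 K
    rw [e]
    exact h3
  · intro E _ _ f hE hf hur g hg
    refine h5 E hE f hf (fun P hP l hl hlP hc τ hτ => ?_) g hg
    exact hur P hP (hcond P hP l hl hlP
      (hc.imp id fun h => ⟨h.1, fun h' => h.2 (Finset.mem_coe.2 h')⟩)) τ hτ
  · intro n A _ _ _ _ hA hpA ρ hρ hres hur g hg
    refine h6 n A hpA ρ (fun i => Pool.Agent.TH831.NA.cts_memN hA hρ i)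
      (fun g => (hres g).imp fun M h => h) (fun P hP l hl hlP hc τ hτ => ?_) g hg
    exact hur P hP (hcond P hP l hl hlP
      (hc.imp id fun h => ⟨h.1, fun h' => h.2 (Finset.mem_coe.2 h')⟩)) τ hτ

theorem exists_tri (χ : ∀ j : ℕ, (ZMod j)ˣ →* Multiplicative (ZMod p))
    (q : Fin 3 → ℕ) (hq : Function.Injective q)
    (h : ∀ i, (q i).Prime ∧ p ∣ q i - 1 ∧ ¬ p ^ 2 ∣ q i - 1)
    (hΔ : Delta χ (q 0) (q 1) (q 2) ≠ 0)
    (hs : sym χ (q 0) (q 1) (q 2) ≠ 0 ∨ sym χ (q 1) (q 2) (q 0) ≠ 0 ∨
      sym χ (q 2) (q 0) (q 1) ≠ 0) :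
    ∃ t : Pool.Agent.N829.PW.Tri p χ, t.l = q ∧ t.lam = fun i j => linking χ (q i) (q j) := by
  have hp0 := hp.out.pos
  refine ⟨{ l := q
            inj := hq
            hl := fun i => ⟨(h i).1, (h i).2.1⟩
            lam := fun i j => linking χ (q i) (q j)
            hlam := fun i j hij x hx => ?_
            hΔ := hΔ
            hu := fun s hs1 hd hnd u hu e1 e2 e3 => ?_ }, rfl, rfl⟩
  · have hco : Nat.Coprime (q i) (q j) :=
      (Nat.coprime_primes (h i).1 (h j).1).2 (hq.ne hij)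
    unfold linking
    rw [dif_pos hco]
    congr 2
    apply Units.ext
    rw [ZMod.coe_unitOfCoprime, hx]
  · have hs2 : s = 1 := by
      by_contra hne
      exact (h 0).2.2 ((pow_dvd_pow p (by omega : 2 ≤ s)).trans (hd 0))
    subst hs2
    have hu' : ∀ i, u i = level p (q i) := by
      intro i
      rw [hu i, pow_one]
      rfl
    rw [hu', hu'] at e1 e2 e3
    rcases hs with hs | hs | hs
    · exact hs e1
    · exact hs e3
    · apply hs
      unfold sym
      rw [add_comm]
      exact e2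

theorem sym_of_gamma {χ : ∀ j : ℕ, (ZMod j)ˣ →* Multiplicative (ZMod p)} {a b c : ℕ}
    (h : Gamma χ a b c ≠ 0) : sym χ a b c ≠ 0 ∨ sym χ b c a ≠ 0 ∨ sym χ c a b ≠ 0 := by
  by_contra hcon
  push Not at hcon
  obtain ⟨h1, h2, h3⟩ := hcon
  apply h
  unfold Gamma
  rw [h1, h2, h3]
  ring

theorem nine_of (hp2 : p ≠ 2) (χ : ∀ j : ℕ, (ZMod j)ˣ →* Multiplicative (ZMod p))
    (q : Fin 3 → ℕ) (hq : Function.Injective q)
    (h : ∀ i, (q i).Prime ∧ p ∣ q i - 1 ∧ ¬ p ^ 2 ∣ q i - 1)
    (hΔ : Delta χ (q 0) (q 1) (q 2) ≠ 0)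
    (hs : sym χ (q 0) (q 1) (q 2) ≠ 0 ∨ sym χ (q 1) (q 2) (q 0) ≠ 0 ∨
      sym χ (q 2) (q 0) (q 1) ≠ 0) : FiniteTowers p (p ^ 9) 3 (Set.range q) := by
  obtain ⟨t, rfl, -⟩ := exists_tri χ q hq h hΔ hs
  exact towers_of t fun E _ _ hE f hfs hfo hur =>
    Run7.h753.TW.tri_nine hp2 t (fun i => (h i).2.2) hE f hfs hfo hur

theorem eight_of (hp2 : p ≠ 2) (χ : ∀ j : ℕ, (ZMod j)ˣ →* Multiplicative (ZMod p))
    (q : Fin 3 → ℕ) (hq : Function.Injective q)
    (h : ∀ i, (q i).Prime ∧ p ∣ q i - 1 ∧ ¬ p ^ 2 ∣ q i - 1)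
    (hΔ : Delta χ (q 0) (q 1) (q 2) ≠ 0) (hΓ : Gamma χ (q 0) (q 1) (q 2) ≠ 0) :
    FiniteTowers p (p ^ 8) 2 (Set.range q) := by
  obtain ⟨t, rfl, ht⟩ := exists_tri χ q hq h hΔ (sym_of_gamma hΓ)
  refine towers_of t fun E _ _ hE f hfs hfo hur =>
    Run7.h753.TW.tri_eight hp2 t (fun i => (h i).2.2) ?_ hE f hfs hfo hur
  rw [ht]
  exact hΓ

theorem good_of (hp2 : p ≠ 2) (χ : ∀ j : ℕ, (ZMod j)ˣ →* Multiplicative (ZMod p))
    (l : Fin 3 → ℕ) (hl : ∀ i, (l i).Prime) (hpl : ∀ i, p ∣ l i - 1) (hli : Function.Injective l)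
    (hG : ¬ Bad 3 (N829.QD.dat χ l)) : FiniteTowers p (p ^ 8) 2 (Set.range l) := by
  have hG' : GoodL (fun i j => linking χ (l i) (l j)) (fun i => level p (l i)) := by
    by_contra hcon
    exact hG ⟨rfl, hcon⟩
  obtain ⟨h1, h2, h3⟩ := hG'
  refine eight_of hp2 χ l hli (fun i => ⟨hl i, hpl i, fun hd => ?_⟩) h2 h3
  apply h1 i
  unfold level
  rw [ZMod.natCast_eq_zero_iff]
  obtain ⟨c, hc⟩ := hd
  refine ⟨c, ?_⟩
  rw [hc, pow_two, mul_assoc, Nat.mul_div_cancel_left _ hp.out.pos]

theorem most_of (hp2 : 2 < p) (χ : ∀ j : ℕ, (ZMod j)ˣ →* Multiplicative (ZMod p))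
    (hχ : Kr χ) {η δ : ℝ} (hη : 0 < η) (hδ : η + 1 / p ≤ δ) (m : ℕ) : ∀ (k : ℕ), k + m = 3 →
      ∀ (l : Fin k → ℕ),
      (∀ i, (l i).Prime) → (∀ i, p ∣ l i - 1) → Function.Injective l →
      N829.QD.GdN Bad η m k (N829.QD.dat χ l) →
      Most p δ (FiniteTowers p (p ^ 8) 2) m (Set.range l) := by
  classical
  have hp : p.Prime := Fact.out
  have hp0 : (0 : ℝ) < p := by exact_mod_cast hp.pos
  have hp1 : (1 : ℝ) ≤ p := by exact_mod_cast hp.one_lt.le
  induction m with
  | zero =>
    intro k hk l hl hpl hli hG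
    obtain rfl : k = 3 := hk
    exact good_of (by omega) χ l hl hpl hli (N829.QD.gd_zero hG)
  | succ m ih =>
    intro k hk l hl hpl hli hG ε hε
    have hst := N829.QD.gd_step hη hG
    obtain ⟨Good, hGood⟩ : ∃ G : (Fin (k + 1) → ZMod p) → (Fin (k + 1) → ZMod p) → Prop,
        G = fun w s => w ≠ 0 ∧
          N829.QD.GdN Bad η m (k + 1) (ext (N829.QD.dat χ l) w s) := ⟨_, rfl⟩
    have hst' : (1 - η) * ((p : ℝ) ^ (k + 1) * (p : ℝ) ^ (k + 1)) - (p : ℝ) ^ (k + 1) ≤
        ((∑ w : Fin (k + 1) → ZMod p,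
          ((univ : Finset (Fin (k + 1) → ZMod p)).filter fun s => Good w s).card : ℕ) : ℝ) := by
      subst hGood
      convert hst
    have hd := densN (p := p) (by omega) χ hχ l hl hpl hli Good
      (fun w s h => by rw [hGood] at h; exact h.1) (fun w s c hc h => by
        rw [hGood] at h ⊢
        refine ⟨fun h0 => h.1 (by
          funext j
          exact (mul_eq_zero.1 (congrFun h0 j)).resolve_left hc), ?_⟩
        unfold N829.QD.GdN
        rw [N829.QD.Nb_wsc bad_scInv m k hc]
        exact h.2) (1 - δ) (by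
        have : (0 : ℝ) < 1 / p := by positivity
        linarith) (by
        rw [le_div_iff₀ (by
          have : 0 < Fintype.card (Fin (k + 1) → ZMod p) := Fintype.card_pos
          positivity), Fintype.card_fun, ZMod.card, Fintype.card_fin]
        refine le_trans ?_ (hst'.trans (le_of_eq (by congr!)))
        push_cast
        have h1 : (0 : ℝ) < (p : ℝ) ^ (k + 1) := by positivity
        have h2 : (p : ℝ) ^ (k + 1) * 1 ≤ (p : ℝ) ^ (k + 1) * ((1 / p) * (p : ℝ) ^ (k + 1)) := by
          refine mul_le_mul_of_nonneg_left ?_ h1.le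
          rw [pow_succ, one_div, mul_comm ((p : ℝ) ^ k), inv_mul_cancel_left₀ hp0.ne']
          exact one_le_pow₀ hp1
        have h3 : (1 - δ) * ((p : ℝ) ^ (k + 1) * (p : ℝ) ^ (k + 1)) ≤
            (1 - η - 1 / p) * ((p : ℝ) ^ (k + 1) * (p : ℝ) ^ (k + 1)) :=
          mul_le_mul_of_nonneg_right (by linarith) (by positivity)
        linarith) ε hε
    filter_upwards [hd] with x hx
    rw [Pr_eq]
    refine le_trans hx (Nat.cast_le.2 (card_le_card ?_))
    intro q hq
    obtain ⟨h1, h2, h34⟩ := (@Finset.mem_filter _ _ _ _ _).1 hq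
    rw [hGood] at h34
    obtain ⟨h3, h4⟩ := h34
    obtain ⟨-, hqp, hpq⟩ := mem_P1.1 h1
    simp only [Finset.mem_filter]
    refine ⟨h1, fun ⟨i, hi⟩ => h2 i hi.symm, ?_⟩
    rw [← Fin.range_cons]
    refine ih (k + 1) (by omega) (Fin.cons q l) ?_ ?_ ?_ ?_
    · intro i
      refine Fin.cases ?_ (fun j => ?_) i
      · exact hqp
      · exact hl j
    · intro i
      refine Fin.cases ?_ (fun j => ?_) i
      · exact hpq
      · exact hpl j
    · rw [Fin.cons_injective_iff]
      exact ⟨fun ⟨i, hi⟩ => h2 i hi.symm, hli⟩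
    · rw [N829.QD.dat_cons χ l hqp]
      exact h4

end

/-- **Finite `p`-class field towers.** For three primes which are `1` modulo `p` and not `1` modulo
`p ^ 2`, with `Δ ≠ 0`: the bounds `p ^ 9` and `3` if not all the numbers `s a`, `s b`, `s c` vanish,
and `p ^ 8` and `2` if `Γ ≠ 0`; and the bounds `p ^ 8` and `2` hold for most triples. -/
theorem result :
    (∀ (p : ℕ) [Fact p.Prime], p ≠ 2 →
      ∀ (χ : ∀ j : ℕ, (ZMod j)ˣ →* Multiplicative (ZMod p)) (a b c : ℕ),
      (a.Prime ∧ p ∣ a - 1 ∧ ¬ p ^ 2 ∣ a - 1) → (b.Prime ∧ p ∣ b - 1 ∧ ¬ p ^ 2 ∣ b - 1) →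
      (c.Prime ∧ p ∣ c - 1 ∧ ¬ p ^ 2 ∣ c - 1) → a ≠ b → a ≠ c → b ≠ c → Delta χ a b c ≠ 0 →
      ((sym χ a b c ≠ 0 ∨ sym χ b c a ≠ 0 ∨ sym χ c a b ≠ 0) →
        FiniteTowers p (p ^ 9) 3 {a, b, c}) ∧
      (Gamma χ a b c ≠ 0 → FiniteTowers p (p ^ 8) 2 {a, b, c})) ∧
    ∀ (p : ℕ) [Fact p.Prime] (δ : ℝ), 0 < δ → δ ≤ 1 → 96 < δ ^ 3 * p →
      Most p δ (FiniteTowers p (p ^ 8) 2) 3 ∅ := by
  classical
  refine ⟨?_, ?_⟩
  · intro p _ hp2 χ a b c ha hb hc hab hac hbc hΔ
    have hinj : Function.Injective ![a, b, c] := by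
      intro i j hij
      fin_cases i <;> fin_cases j
      · rfl
      · exact absurd hij hab
      · exact absurd hij hac
      · exact absurd hij.symm hab
      · rfl
      · exact absurd hij hbc
      · exact absurd hij.symm hac
      · exact absurd hij.symm hbc
      · rfl
    have hall : ∀ i, (![a, b, c] i).Prime ∧ p ∣ ![a, b, c] i - 1 ∧ ¬ p ^ 2 ∣ ![a, b, c] i - 1 := by
      rw [Fin.forall_fin_succ, Fin.forall_fin_two]
      exact ⟨ha, hb, hc⟩
    have hr : Set.range ![a, b, c] = {a, b, c} := by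
      ext l
      rw [Set.mem_range, Fin.exists_fin_succ, Fin.exists_fin_two]
      simp only [Set.mem_insert_iff, Set.mem_singleton_iff]
      exact ⟨fun h => by
        rcases h with h | h | h
        · exact Or.inl h.symm
        · exact Or.inr (Or.inl h.symm)
        · exact Or.inr (Or.inr h.symm), fun h => by
        rcases h with h | h | h
        · exact Or.inl h.symm
        · exact Or.inr (Or.inl h.symm)
        · exact Or.inr (Or.inr h.symm)⟩
    rw [← hr]
    exact ⟨fun hs => nine_of hp2 χ ![a, b, c] hinj hall hΔ hs,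
      fun hΓ => eight_of hp2 χ ![a, b, c] hinj hall hΔ hΓ⟩
  · intro p _ δ hδ hδ1 hp0
    have hp : p.Prime := Fact.out
    have hpp : (0 : ℝ) < p := by exact_mod_cast hp.pos
    have hδ3 : δ ^ 3 ≤ 1 := pow_le_one₀ hδ.le hδ1
    have hp96 : (96 : ℝ) < p := by nlinarith
    have hp2 : 2 < p := by
      have : (2 : ℝ) < p := by linarith
      exact_mod_cast this
    have hcard := Run7.h753.TW.bad_card (p := p) (by omega)
    obtain ⟨χ, hχ, -⟩ := extend (p := p) (fun _ => 1) ∅
      (fun j hj => absurd hj (Set.notMem_empty j))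
    have h3 : 1 / (p : ℝ) ≤ δ / 2 := by
      rw [div_le_div_iff₀ hpp (by norm_num)]
      have h4 : δ ^ 3 ≤ δ := by
        calc δ ^ 3 = δ * δ ^ 2 := by ring
          _ ≤ δ * 1 := mul_le_mul_of_nonneg_left (pow_le_one₀ hδ.le hδ1) hδ.le
          _ = δ := mul_one δ
      have h5 : δ ^ 3 * p ≤ δ * p := mul_le_mul_of_nonneg_right h4 hpp.le
      linarith
    have hG : N829.QD.GdN (p := p) Bad (δ / 2) 3 0
        (N829.QD.dat χ (Fin.elim0 : Fin 0 → ℕ)) := by
      refine N829.QD.gd_init ?_ _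
      have h5 : ((((Z p 3).filter fun D => Bad 3 D).card : ℕ) : ℝ) * p ≤
          12 * (p : ℝ) ^ (3 ^ 2 + 3) := by
        exact_mod_cast hcard
      have h6 : (12 : ℝ) * (p : ℝ) ^ (3 ^ 2 + 3) < ((δ / 2) ^ 3 * (p : ℝ) ^ (3 ^ 2 + 3)) * p := by
        have h7 : (0 : ℝ) < (p : ℝ) ^ (3 ^ 2 + 3) := by positivity
        calc (12 : ℝ) * (p : ℝ) ^ (3 ^ 2 + 3) < ((δ / 2) ^ 3 * p) * (p : ℝ) ^ (3 ^ 2 + 3) :=
              mul_lt_mul_of_pos_right (by
                have : (δ / 2) ^ 3 * p = δ ^ 3 * p / 8 := by ring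
                rw [this]
                linarith) h7
          _ = ((δ / 2) ^ 3 * (p : ℝ) ^ (3 ^ 2 + 3)) * p := by ring
      exact lt_of_mul_lt_mul_right (lt_of_le_of_lt h5 h6) hpp.le
    have := most_of (p := p) hp2 χ hχ (η := δ / 2) (δ := δ) (by positivity)
      (by linarith) 3 0 rfl (Fin.elim0 : Fin 0 → ℕ) (fun i => i.elim0) (fun i => i.elim0)
      (fun i => i.elim0) hG
    rwa [Set.range_eq_empty] at this

end Pool.Agent.Results.MP_ca71b5_nt.FiniteTowersTriples
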