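import Pool.Agent.Run7.h333.FMW.Quad

/-!
# Everywhere unramified representations of quadratic extensions, and both class groups

Let `p` be a prime, `p = 2` included, and let `K/F` be any quadratic extension of number fields.
Suppose that `p ^ r` kills the `p`-part of the class group of `F`, and that the `p ^ k`-th powers in
the `p`-part of the class group of `K` form a cyclic group (for instance, that `p ^ k` kills it).
Let `A` be a Noetherian local ring in which `p` is neither a unit nor a zero divisor, with maximal
ideal `m`, and let `I` be an ideal of `A` with `I ^ (p - 1) ≤ p m`, `I ≤ 2 p ^ r m` and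
`I ^ 2 ≤ 2 p ^ (k + r) m`; for `I = (p ^ a)` this means `r < a` and `k + r < 2 a` if `p` is odd, and
`r + 1 < a` and `k + r + 1 < 2 a` if `p = 2`. Then every continuous representation of the absolute
Galois group of `K` into `GL_n(A)`, which is unramified at all finite primes and trivial modulo `I`,
is trivial.

The case `r = 0` is the theorem on quadratic extensions in the file `QuadraticExtensions.lean`;
here the class number of `F` may be divisible by `p`.

More generally, ramification is allowed at the primes above a set `S` of primes of `F`, if the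
conditions hold for all abelian `p`-extensions of `F` and `K` unramified outside `S`.
-/

set_option autoImplicit false

open NumberField IsLocalRing

namespace Pool.Agent.Results.MP_ca71b5_nt.SharpExponents

/-- The homomorphism `f` from the subgroup `U` of the absolute Galois group of `F` to a group `E` is
unramified outside `S`, and at the real places. At the finite places: for every maximal ideal `P` of
the ring of all algebraic integers whose intersection with the integers of `F` is not in `S`, the
inertia group at `P` in `U` is mapped to `1`. At the real places: all complex conjugations in `U`,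
that is, all elements of order two, are mapped to `1`. -/
def Unramified {F : Type} [Field F] (S : Set (Ideal (𝓞 F)))
    {U : Subgroup Gal(AlgebraicClosure F/F)} {E : Type} [Group E] (f : U →* E) : Prop :=
  (∀ P : Ideal (𝓞 (AlgebraicClosure F)), P.IsMaximal →
    P.comap (algebraMap (𝓞 F) (𝓞 (AlgebraicClosure F))) ∉ S → ∀ τ : U,
      (∀ x : 𝓞 (AlgebraicClosure F), (τ : Gal(AlgebraicClosure F/F)) • x - x ∈ P) → f τ = 1) ∧
  ∀ τ : U, τ * τ = 1 → f τ = 1

/-- `p ^ m` kills the Galois groups of all finite abelian extensions of `p`-power degree of the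
fixed field of `U`, which are unramified outside `S` and at the real places. -/
def AbelianExponent {F : Type} [Field F] (S : Set (Ideal (𝓞 F)))
    (U : Subgroup Gal(AlgebraicClosure F/F)) (p m : ℕ) : Prop :=
  ∀ (E : Type) [CommGroup E] [Finite E], IsPGroup p E → ∀ f : U →* E,
    IsOpen (f.ker : Set U) → Unramified S f → ∀ g, f g ^ (p ^ m) = 1

/-- The `p ^ k`-th powers form a cyclic group in the Galois groups of all finite abelian extensions
of `p`-power degree of the fixed field of `U`, which are unramified outside `S` and at the real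
places. -/
def CyclicPowers {F : Type} [Field F] (S : Set (Ideal (𝓞 F)))
    (U : Subgroup Gal(AlgebraicClosure F/F)) (p k : ℕ) : Prop :=
  ∀ (E : Type) [CommGroup E] [Finite E], IsPGroup p E → ∀ f : U →* E,
    IsOpen (f.ker : Set U) → Unramified S f →
      ∃ g₀, ∀ g, ∃ j : ℕ, f g ^ (p ^ k) = (f g₀ ^ (p ^ k)) ^ j

theorem result (p : ℕ) [Fact p.Prime] (F : Type) [Field F] [NumberField F] (S : Set (Ideal (𝓞 F)))
    (K : IntermediateField F (AlgebraicClosure F)) (hK : Module.finrank F K = 2)
    (r : ℕ) (hF : AbelianExponent S (⊤ : Subgroup Gal(AlgebraicClosure F/F)) p r)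
    (hfin : ∃ m, AbelianExponent S K.fixingSubgroup p m)
    (k : ℕ) (hcyc : CyclicPowers S K.fixingSubgroup p k)
    (A : Type) [CommRing A] [IsLocalRing A] [IsNoetherianRing A] [TopologicalSpace A]
    (hA : IsAdic (maximalIdeal A)) (hpA : (p : A) ∈ maximalIdeal A)
    (hp0 : ∀ x : A, (p : A) * x = 0 → x = 0) (I : Ideal A)
    (h1 : I ^ (p - 1) ≤ Ideal.span {(p : A)} * maximalIdeal A)
    (h2 : I ≤ Ideal.span {2 * (p : A) ^ r} * maximalIdeal A)
    (h3 : I ^ 2 ≤ Ideal.span {2 * (p : A) ^ (k + r)} * maximalIdeal A)
    (n : ℕ) (ρ : K.fixingSubgroup →* GL (Fin n) A) (hρ : Continuous ρ)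
    (hur : ∀ P : Ideal (𝓞 (AlgebraicClosure F)), P.IsMaximal →
      P.comap (algebraMap (𝓞 F) (𝓞 (AlgebraicClosure F))) ∉ S → ∀ τ : K.fixingSubgroup,
        (∀ x : 𝓞 (AlgebraicClosure F), (τ : Gal(AlgebraicClosure F/F)) • x - x ∈ P) → ρ τ = 1)
    (hcong : ∀ g i j, ((ρ g : Matrix (Fin n) (Fin n) A) - 1) i j ∈ I) :
    ∀ g, ρ g = 1 := by
  have hp : p.Prime := Fact.out
  have hfd : FiniteDimensional F K := Module.finite_of_finrank_pos (by rw [hK]; norm_num)
  have hidx : K.fixingSubgroup.index = 2 := by
    rw [← IntermediateField.finrank_eq_fixingSubgroup_index, hK]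
  have hop : IsOpen (K.fixingSubgroup : Set Gal(AlgebraicClosure F/F)) :=
    IntermediateField.fixingSubgroup_isOpen K
  have hI : I ≤ maximalIdeal A := h2.trans Ideal.mul_le_right
  have h2u : p ≠ 2 → IsUnit (2 : A) := by
    intro hp2
    by_contra hcon
    have h3 : (2 : A) ∈ maximalIdeal A := (mem_maximalIdeal _).2 hcon
    have hodd : Odd p := hp.odd_of_ne_two hp2
    obtain ⟨r, hr⟩ := hodd
    have h4 : (1 : A) = (p : A) - 2 * (r : A) := by
      rw [hr]; push_cast; ring
    have h5 : (1 : A) ∈ maximalIdeal A := by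
      rw [h4]
      exact Ideal.sub_mem _ hpA (Ideal.mul_mem_right _ _ h3)
    exact (Ideal.ne_top_iff_one _).1 (Ideal.IsPrime.ne_top inferInstance) h5
  have h20 : ∀ x : A, (2 : A) * x = 0 → x = 0 := by
    intro x hx
    by_cases hp2 : p = 2
    · apply hp0
      rw [hp2]
      exact_mod_cast hx
    · exact (h2u hp2).mul_right_eq_zero.1 hx
  have e2 : I ≤ Ideal.span {(2 : A)} * maximalIdeal A := by
    refine h2.trans (Ideal.mul_mono_left ?_)
    rw [Ideal.span_singleton_le_span_singleton]
    exact Dvd.intro _ rfl
  have hcong' : ∀ g, Pool.Agent.N829.TT.Ent I (Pool.Agent.N829.TT.Dm ρ g) := hcong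
  have hall : ∀ x : K.fixingSubgroup, (x : Gal(AlgebraicClosure F/F)) ∈
      Pool.Agent.N829.TT.Wr S → ρ x = 1 := by
    rintro x (⟨P, hP, hS, hx⟩ | hx)
    · exact hur P hP hS x hx
    · refine Pool.Agent.N829.TT.tors_two e2 h20 ρ (hcong' x) ?_
      have h3 : x * x = 1 := Subtype.ext hx
      rw [← map_mul, h3, map_one]
  have hunr : ∀ {E : Type} [Group E] (f : K.fixingSubgroup →* E),
      (∀ x ∈ {x : K.fixingSubgroup | (x : Gal(AlgebraicClosure F/F)) ∈
        Pool.Agent.N829.TT.Wr S}, f x = 1) → Unramified S f := by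
    intro E _ f hf
    exact ⟨fun P hP hS τ hτ => hf τ (Or.inl ⟨P, hP, hS, hτ⟩),
      fun τ hτ => hf τ (Or.inr (congrArg Subtype.val hτ))⟩
  obtain ⟨m, hm⟩ := hfin
  exact Run7.h333.FMW.main3 (p := p) (k := k) (m := m) (r := r) hop hidx
    Pool.Agent.N829.TT.Wr_conj Pool.Agent.N829.TT.Wr_sq
    (fun E _ f hf g => by
      have := hf.fin
      exact hF E hf.pg (f.comp (Subgroup.subtype ⊤)) (hf.op.preimage continuous_subtype_val)
        ⟨fun P hP hS τ hτ => hf.ur _ (Or.inl ⟨P, hP, hS, hτ⟩),
          fun τ hτ => hf.ur _ (Or.inr (congrArg Subtype.val hτ))⟩ ⟨g, Subgroup.mem_top g⟩)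
    (fun E _ f hf g => by
      have := hf.fin
      exact hm E hf.pg f hf.op (hunr f hf.ur) g)
    (fun E _ f hf => by
      have := hf.fin
      exact hcyc E hf.pg f hf.op (hunr f hf.ur))
    hI hpA h1 h2 (by rw [← pow_two]; exact h3) hp0 h20 ρ hcong'
    (fun N => Pool.Agent.N829.TT.open_red hA hρ N) hall

end Pool.Agent.Results.MP_ca71b5_nt.SharpExponents
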