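import Pool.Agent.Run7.h333.FMW.Num
import Pool.Agent.W655.FM.Depth

/-!
# Unramified representations of number fields with few cyclic extensions of maximal degree

Let `K/F` be a finite Galois extension of number fields, `p` a prime, `p ^ e > 2`, and suppose that
`p ^ e` kills the Galois groups of all finite abelian `p`-extensions of `K` unramified at the finite
primes, that is, the `p`-part `A` of the (narrow, if `p = 2`) class group of `K`. Let `T` be the
space of the homomorphisms from `A` to `ℤ/p` which vanish on `A[p ^ (e - 1)]`, the dual of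
`p ^ (e - 1) A`; its dimension is the `p ^ e`-rank of the class group, the number of factors
`ℤ/p ^ e` of `A`. If `K` has a continuous representation `ρ` of its absolute Galois group into
`GL_n(ℤ_p)` which is unramified at the finite primes, trivial modulo `p ^ e`, but not trivial, then
there is a nonzero quotient of `p ^ (e - 1) A`, with its action of `Gal(K/F)`, inside a finite
`𝔽_p`-algebra with an action of `Gal(K/F)`, all elements of which are sums of commutators of its
elements. No assumption on the order of `Gal(K/F)` is made.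

It follows that all such `ρ` are trivial in each of the following cases.
* The `p ^ e`-rank is at most two (no Galois action needed).
* The `p ^ e`-rank is at most three, and some `σ` in `Gal(K/F)`, of any order, fixes no nonzero
  element of `T`.
* Some `σ` of order at most two fixes no nonzero element of `T`: let `M` be its fixed field; if the
  `p`-part of the class group of `M` is killed by `p ^ (e - 1)`, this is the case for `p` odd.
* Some `σ` of order dividing `m`, `m` prime to `p`, fixes no nonzero element of `T`, and the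
  `p ^ e`-rank is at most `r`, where there is no nonempty list of at most `r` nonzero residues
  modulo `m` such that every residue occurs at most as often in it as it is the sum of two of its
  entries; for instance `m = 3` and `r = 5`, or `m = 4` and `r = 4`.
-/

set_option autoImplicit false

open NumberField

namespace Pool.Agent.Results.MP_ca71b5_nt.SmallTopRank

/-- The homomorphism `f` from the absolute Galois group of `K` to a group `E` is unramified at all
finite primes: for every maximal ideal `P` of the ring of all algebraic integers, the inertia group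
at `P` in the absolute Galois group of `K` is mapped to `1`. -/
def Unramified {F : Type} [Field F] {K : IntermediateField F (AlgebraicClosure F)}
    {E : Type} [Group E] (f : K.fixingSubgroup →* E) : Prop :=
  ∀ P : Ideal (𝓞 (AlgebraicClosure F)), P.IsMaximal → ∀ τ : K.fixingSubgroup,
    (∀ x : 𝓞 (AlgebraicClosure F), (τ : Gal(AlgebraicClosure F/F)) • x - x ∈ P) → f τ = 1

/-- The image of `g` in `A` is killed by `p ^ e`: its image in the Galois group of every unramified
finite abelian extension of `K` of `p`-power degree is killed by `p ^ e`. -/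
def KilledBy {F : Type} [Field F] {K : IntermediateField F (AlgebraicClosure F)} (p e : ℕ)
    (g : K.fixingSubgroup) : Prop :=
  ∀ (E : Type) [CommGroup E] [Finite E], IsPGroup p E → ∀ f : K.fixingSubgroup →* E,
    IsOpen (f.ker : Set K.fixingSubgroup) → Unramified f → f g ^ (p ^ e) = 1

/-- `φ` is a continuous unramified homomorphism from the absolute Galois group of `K` to the
additive group `V`, and vanishes on the elements whose image in `A` is killed by `p ^ (e - 1)`. If
`p V = 0` this is the same as a homomorphism from `p ^ (e - 1) A` to `V`. -/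
def OnTop {F : Type} [Field F] {K : IntermediateField F (AlgebraicClosure F)} (p e : ℕ)
    {V : Type} [AddCommGroup V] (φ : K.fixingSubgroup →* Multiplicative V) : Prop :=
  IsOpen (φ.ker : Set K.fixingSubgroup) ∧ Unramified φ ∧ ∀ g, KilledBy p (e - 1) g → φ g = 1

/-- The dimension of `T` is at most `r`: any `r + 1` elements are linearly dependent. -/
def TopRankLe {F : Type} [Field F] (K : IntermediateField F (AlgebraicClosure F)) (p e : ℕ)
    [Fact p.Prime] (r : ℕ) : Prop :=
  ∀ f : Fin (r + 1) → (K.fixingSubgroup →* Multiplicative (ZMod p)), (∀ i, OnTop p e (f i)) →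
    ∃ c : Fin (r + 1) → ZMod p, c ≠ 0 ∧ ∀ g, ∑ i, c i * Multiplicative.toAdd (f i g) = 0

/-- `σ` fixes no nonzero element of `T`. -/
def FixesNothing {F : Type} [Field F] [CharZero F]
    (K : IntermediateField F (AlgebraicClosure F)) [IsGalois F K] (p e : ℕ) [Fact p.Prime]
    (σ : Gal(AlgebraicClosure F/F)) : Prop :=
  ∀ f : K.fixingSubgroup →* Multiplicative (ZMod p), OnTop p e f →
    (∀ g : K.fixingSubgroup, f (MulAut.conjNormal σ g) = f g) → ∀ g, f g = 1

/-- Whenever `Gal(K/F)` acts on a finite algebra `R` over `ℤ/p`, and `φ` is an equivariant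
homomorphism from `p ^ (e - 1) A` to `R` such that all values of `φ` are sums of commutators of
values of `φ`, then `φ` is zero. -/
def NoPerfectImage {F : Type} [Field F] [CharZero F]
    (K : IntermediateField F (AlgebraicClosure F)) [IsGalois F K] (p e : ℕ)
    [Fact p.Prime] : Prop :=
  ∀ (R : Type) [Ring R] [Algebra (ZMod p) R] [Finite R]
    (act : Gal(AlgebraicClosure F/F) →* (R ≃ₐ[ZMod p] R))
    (φ : K.fixingSubgroup →* Multiplicative R), (∀ h : K.fixingSubgroup, act h = 1) →
    OnTop p e φ →
    (∀ (σ : Gal(AlgebraicClosure F/F)) (g : K.fixingSubgroup), φ (MulAut.conjNormal σ g) =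
      Multiplicative.ofAdd (act σ (Multiplicative.toAdd (φ g)))) →
    (∀ g, Multiplicative.toAdd (φ g) ∈ AddSubgroup.closure {x : R | ∃ a b, x =
      Multiplicative.toAdd (φ a) * Multiplicative.toAdd (φ b) -
        Multiplicative.toAdd (φ b) * Multiplicative.toAdd (φ a)}) → ∀ g, φ g = 1

/-- There is no nonempty list of at most `r` nonzero residues modulo `m` in which every residue `i`
occurs at most as often as there are pairs of positions `q.1 < q.2` whose entries have the sum
`i`. -/
def NoList (m r : ℕ) : Prop :=
  ∀ N ≤ r, ∀ d : Fin N → ZMod m, (∀ t, d t ≠ 0) →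
    (∀ i, (Finset.univ.filter fun t => d t = i).card ≤
      (Finset.univ.filter fun q : Fin N × Fin N => q.1 < q.2 ∧ d q.1 + d q.2 = i).card) → N = 0

theorem result (p : ℕ) [Fact p.Prime] (F : Type) [Field F] [NumberField F]
    (K : IntermediateField F (AlgebraicClosure F)) [FiniteDimensional F K] [IsGalois F K]
    (e : ℕ) (he : 2 < p ^ e) :
    -- the criterion
    (NoPerfectImage K p e → (∀ g : K.fixingSubgroup, KilledBy p e g) →
      ∀ (n : ℕ) (ρ : K.fixingSubgroup →* GL (Fin n) ℤ_[p]), Continuous ρ → Unramified ρ →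
        (∀ g, ∃ α : Matrix (Fin n) (Fin n) ℤ_[p],
          (ρ g : Matrix (Fin n) (Fin n) ℤ_[p]) = 1 + ((p : ℤ_[p]) ^ e) • α) → ∀ g, ρ g = 1) ∧
    -- cases in which it applies
    (TopRankLe K p e 2 → NoPerfectImage K p e) ∧
    (∀ σ : Gal(AlgebraicClosure F/F), FixesNothing K p e σ →
      (TopRankLe K p e 3 → NoPerfectImage K p e) ∧
      (σ ^ 2 ∈ K.fixingSubgroup → NoPerfectImage K p e) ∧
      (∀ m r : ℕ, σ ^ m ∈ K.fixingSubgroup → ¬ p ∣ m → NoList m r → TopRankLe K p e r →
        NoPerfectImage K p e)) ∧
    NoList 3 5 ∧ NoList 4 4 := by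
  have hfi : Finite (Gal(AlgebraicClosure F/F) ⧸ K.fixingSubgroup) := by
    have : CompactSpace Gal(AlgebraicClosure F/F) := inferInstance
    exact Subgroup.quotient_finite_of_isOpen _ (IntermediateField.fixingSubgroup_isOpen K)
  set Ur : Set K.fixingSubgroup := {τ | ∃ P : Ideal (𝓞 (AlgebraicClosure F)), P.IsMaximal ∧
    ∀ x : 𝓞 (AlgebraicClosure F), (τ : Gal(AlgebraicClosure F/F)) • x - x ∈ P} with hUr
  have key : ∀ {E : Type} [Group E] (f : K.fixingSubgroup →* E),
      (∀ τ ∈ Ur, f τ = 1) ↔ Unramified f := by
    intro E _ f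
    constructor
    · exact fun h P hP τ hτ => h τ ⟨P, hP, hτ⟩
    · rintro h τ ⟨P, hP, hτ⟩
      exact h P hP τ hτ
  have hU : ∀ (σ : Gal(AlgebraicClosure F/F)), ∀ τ ∈ Ur, MulAut.conjNormal σ τ ∈ Ur := by
    rintro σ τ ⟨P, hP, hτ⟩
    obtain ⟨P', hP', -, hI'⟩ := Pool.Agent.W569.FM.conj_ideal σ P hP
    refine ⟨P', hP', ?_⟩
    rw [MulAut.conjNormal_apply]
    exact hI' _ hτ
  have hkill : ∀ (e' : ℕ) (g : K.fixingSubgroup),
      Run7.h333.FMW.Kills K.fixingSubgroup Ur p e' g ↔ KilledBy p e' g := by
    intro e' g
    constructor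
    · intro h E _ _ hE f hf hu
      exact h E hE f hf ((key f).2 hu)
    · intro h E _ _ hE f hf hu
      exact h E hE f hf ((key f).1 hu)
  have htop : ∀ {V : Type} [AddCommGroup V] (φ : K.fixingSubgroup →* Multiplicative V),
      Run7.h333.FMW.TopH K.fixingSubgroup Ur p e φ ↔ OnTop p e φ := by
    intro V _ φ
    constructor
    · rintro ⟨h1, h2, h3⟩
      exact ⟨h1, (key φ).1 h2, fun g hg => h3 g ((hkill _ g).2 hg)⟩
    · rintro ⟨h1, h2, h3⟩
      exact ⟨h1, (key φ).2 h2, fun g hg => h3 g ((hkill _ g).1 hg)⟩
  have hrank : ∀ r, TopRankLe K p e r → Run7.h333.FMW.RankLe K.fixingSubgroup Ur p e r :=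
    fun r h f hf => h f fun i => (htop _).1 (hf i)
  have hcrit : Run7.h333.FMW.Crit K.fixingSubgroup Ur p e ↔ NoPerfectImage K p e := by
    constructor
    · intro h R _ _ _ act φ h1 h2 h3 h4
      exact h R act φ h1 ((htop φ).2 h2) h3 h4
    · intro h R _ _ _ act φ h1 h2 h3 h4
      exact h R act φ h1 ((htop φ).1 h2) h3 h4
  refine ⟨?_, ?_, ?_, Run7.h333.FMW.num_three, Run7.h333.FMW.num_four⟩
  · intro hno hk n ρ hρ hur hcong
    have he1 : 1 ≤ e := by
      rcases Nat.eq_zero_or_pos e with h | h
      · rw [h, pow_zero] at he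
        omega
      · exact h
    exact Run7.h333.FMW.main (n := n) Pool.Agent.W655.FM.Depth.main hU he1 he
      (fun g => (hkill e g).2 (hk g)) (hcrit.2 hno) ρ hρ ((key ρ).2 hur) hcong
  · exact fun h => hcrit.1 (Run7.h333.FMW.crit_rank (hrank 2 h))
  · intro σ hσ
    have hσ' : Run7.h333.FMW.NoFix K.fixingSubgroup Ur p e σ :=
      fun f hf hfx => hσ f ((htop f).1 hf) hfx
    exact ⟨fun h => hcrit.1 (Run7.h333.FMW.crit_three (hrank 3 h) hσ'),
      fun h => hcrit.1 (Run7.h333.FMW.crit_inv h hσ'),
      fun m r h1 h2 h3 h4 => hcrit.1 (Run7.h333.FMW.crit_num (hrank r h4) h1 h2 hσ' h3)⟩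

end Pool.Agent.Results.MP_ca71b5_nt.SmallTopRank
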