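import Pool.Agent.Run7.h707.UF.Cnt
import Pool.Agent.Run7.h707.UF.Den
import Pool.Agent.Run7.h707.UH.NF

/-!
# Everywhere unramified representations of `p`-extensions with small or short class group

Let `p` be an odd prime and let `K/F` be a Galois extension of number fields of `p`-power degree,
such that the `p`-class field tower of `F` is finite (for example, the class number of `F` is not
divisible by `p`). Suppose that the class group of `K` has `p`-rank at most `(p - 1) / 2`, or that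
its dual modulo `p` is killed by all products of `d` differences `σ - 1`, `σ ∈ Gal(K/F)`, with
`2 d - 1 ≤ p - 2`. Then every continuous everywhere unramified representation of the absolute Galois
group of `K` into `GL_n(ℤ_p)`, which is trivial modulo `p`, is trivial, for all `n`. In the case of
trivial action (`d = 1`) it is enough that the products of `p - 2` matrices `ρ g - 1` are divisible
by `p`, and every everywhere unramified, residually unipotent representation is trivial for
`n ≤ p - 2`. Cyclic extensions of `ℚ` with infinite `p`-class field tower give examples; for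
`p = 3` the condition holds for more than five sixths of all cyclic cubic fields with a given number
of tamely ramified primes, chosen from given sets of primes.
-/

set_option autoImplicit false

open NumberField

namespace Pool.Agent.Results.MP_ca71b5_nt.TrivialActionExtensions

/-- The absolute Galois group of the field `F`. -/
abbrev AbsGal (F : Type) [Field F] : Type := Gal(AlgebraicClosure F/F)

/-- The extensions of the field `F` inside its algebraic closure. -/
abbrev Ext (F : Type) [Field F] : Type := IntermediateField F (AlgebraicClosure F)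

/-- The homomorphism `f` from the subgroup `U` of the absolute Galois group of `F` to a group `E` is
unramified at all finite primes: for every maximal ideal `P` of the ring of all algebraic integers,
the inertia group at `P` in `U` is mapped to `1`. -/
def Unramified {F : Type} [Field F] {U : Subgroup (AbsGal F)} {E : Type} [Group E]
    (f : U →* E) : Prop :=
  ∀ P : Ideal (𝓞 (AlgebraicClosure F)), P.IsMaximal → ∀ τ : U,
    (∀ x : 𝓞 (AlgebraicClosure F), (τ : AbsGal F) • x - x ∈ P) → f τ = 1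

/-- `f` is a continuous homomorphism to `ℤ/p`, unramified at all finite primes. (For odd `p`, class
field theory identifies these `f` with the homomorphisms from the class group to `ℤ/p`.) -/
def Mem {F : Type} [Field F] {U : Subgroup (AbsGal F)} {p : ℕ}
    (f : U →* Multiplicative (ZMod p)) : Prop :=
  IsOpen (f.ker : Set U) ∧ Unramified f

/-- All continuous unramified homomorphisms from the absolute Galois group of `F` to `ℤ/p` are
trivial. (For odd `p`: the class number of `F` is not divisible by `p`.) -/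
def NoCharacter (F : Type) [Field F] (p : ℕ) : Prop :=
  ∀ f : (⊤ : Subgroup (AbsGal F)) →* Multiplicative (ZMod p), Mem f → ∀ g, f g = 1

/-- The Galois groups of the finite Galois `p`-extensions of `F` unramified at all finite primes have
bounded exponent; for example, the `p`-class field tower of `F` is finite. -/
def BoundedTower (F : Type) [Field F] (p : ℕ) : Prop :=
  ∃ b : ℕ, ∀ N : Subgroup (AbsGal F), N.Normal → IsOpen (N : Set (AbsGal F)) →
    (∀ σ : AbsGal F, ∃ j : ℕ, σ ^ p ^ j ∈ N) →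
    (∀ P : Ideal (𝓞 (AlgebraicClosure F)), P.IsMaximal → ∀ τ : AbsGal F,
      (∀ x : 𝓞 (AlgebraicClosure F), τ • x - x ∈ P) → τ ∈ N) →
      ∀ σ : AbsGal F, σ ^ p ^ b ∈ N

/-- `f` is killed by all products of `d` differences `σ - 1`, where `σ` in the absolute Galois group
of `F` acts on functions by `(σ f)(g) = f(σ g σ⁻¹)`. -/
def KilledBy {F : Type} [Field F] {U : Subgroup (AbsGal F)} {p : ℕ} : ℕ → (U → ZMod p) → Prop
  | 0, f => ∀ g, f g = 0
  | d + 1, f => ∀ (σ : AbsGal F) (f' : U → ZMod p),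
      (∀ g g' : U, (g' : AbsGal F) = σ * g * σ⁻¹ → f' g = f g' - f g) → KilledBy d f'

/-- All continuous unramified homomorphisms from the absolute Galois group of `K` to `ℤ/p` are killed
by all products of `d` differences `σ - 1`, `σ` in the absolute Galois group of `F`. (For `d = 1`,
odd `p` and `K/F` Galois: `Gal(K/F)` acts trivially on the class group of `K` modulo `p`.) -/
def ShortAction {F : Type} [Field F] (K : Ext F) (p d : ℕ) : Prop :=
  ∀ f : K.fixingSubgroup →* Multiplicative (ZMod p), Mem f →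
    KilledBy d fun g => Multiplicative.toAdd (f g)

/-- There are at most `p ^ r` continuous unramified homomorphisms from the absolute Galois group of
`K` to `ℤ/p`. (For odd `p`: the `p`-rank of the class group of `K` is at most `r`.) -/
def RankLe {F : Type} [Field F] (K : Ext F) (p r : ℕ) : Prop :=
  Set.encard {f : K.fixingSubgroup →* Multiplicative (ZMod p) | Mem f} ≤ ((p ^ r : ℕ) : ℕ∞)

/-- Every `ρ g` is unipotent modulo `p`: some power of `ρ g - 1` is divisible by `p`. -/
def ResiduallyUnipotent {F : Type} [Field F] {U : Subgroup (AbsGal F)} {p : ℕ} [Fact p.Prime]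
    {n : ℕ} (ρ : U →* GL (Fin n) ℤ_[p]) : Prop :=
  ∀ g, ∃ M : ℕ, ∀ i j, (p : ℤ_[p]) ∣ (((ρ g : Matrix (Fin n) (Fin n) ℤ_[p]) - 1) ^ M) i j

/-- All products of `e` matrices of the form `ρ g - 1` are divisible by `p`. For `e = 1` this means
that `ρ` is trivial modulo `p`. -/
def Depth {F : Type} [Field F] {U : Subgroup (AbsGal F)} {p : ℕ} [Fact p.Prime] (e : ℕ)
    {n : ℕ} (ρ : U →* GL (Fin n) ℤ_[p]) : Prop :=
  ∀ l : List U, l.length = e → ∀ i j,
    (p : ℤ_[p]) ∣ (l.map fun g => (ρ g : Matrix (Fin n) (Fin n) ℤ_[p]) - 1).prod i j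

/-- For all `n`, every continuous everywhere unramified representation of the absolute Galois group
of `K` into `GL_n(ℤ_p)` which satisfies `Depth e`, or is residually unipotent with `n ≤ e`, is
trivial. -/
def Rigid {F : Type} [Field F] (K : Ext F) (p e : ℕ) [Fact p.Prime] : Prop :=
  ∀ (n : ℕ) (ρ : K.fixingSubgroup →* GL (Fin n) ℤ_[p]), Continuous ρ → Unramified ρ →
    (Depth e ρ ∨ n ≤ e ∧ ResiduallyUnipotent ρ) → ∀ g, ρ g = 1

/-- The value of `χ_j` at the class of `l` modulo `j` (and `0` if `j` and `l` are not coprime). -/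
def value {p : ℕ} (χ : ∀ j : ℕ, (ZMod j)ˣ →* Multiplicative (ZMod p)) (j l : ℕ) : ZMod p :=
  if h : l.Coprime j then Multiplicative.toAdd (χ j (ZMod.unitOfCoprime l h)) else 0

/-- `K` is the extension of `ℚ` cut out by the product of the Dirichlet characters `χ_l`, `l ∈ S`:
an element `g` of the absolute Galois group of `ℚ`, which acts on the `l`-th roots of unity as the
power `a_l` for all `l ∈ S`, fixes `K` if and only if `∏ χ_l(a_l) = 1`. -/
def CutOut {p : ℕ} (S : Finset ℕ) (χ : ∀ l : ℕ, (ZMod l)ˣ →* Multiplicative (ZMod p))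
    (K : Ext ℚ) : Prop :=
  ∀ (g : AbsGal ℚ) (a : ∀ l : ℕ, (ZMod l)ˣ),
    (∀ l ∈ S, ∀ ζ : AlgebraicClosure ℚ, ζ ^ l = 1 → g ζ = ζ ^ ((a l : (ZMod l)ˣ) : ZMod l).val) →
      (g ∈ K.fixingSubgroup ↔ ∏ l ∈ S, χ l (a l) = 1)

/-- The Rédei matrix has the largest possible rank `|S| - 1`: only the constant functions `x` on `S`
satisfy `∑_{j ∈ S, j ≠ l} χ_j(l) (x_j - x_l) = 0` for all `l ∈ S`. -/
def FullRank {p : ℕ} (S : Finset ℕ) (χ : ∀ l : ℕ, (ZMod l)ˣ →* Multiplicative (ZMod p)) : Prop :=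
  ∀ x : ℕ → ZMod p, (∀ l ∈ S, ∑ j ∈ S.erase l, value χ j l * (x j - x l) = 0) →
    ∃ c, ∀ l ∈ S, x l = c

/-- `χ_l` is nontrivial for all `l` in `S`, a nonempty set of primes `≠ p`. -/
def Admissible {p : ℕ} (S : Finset ℕ) (χ : ∀ l : ℕ, (ZMod l)ˣ →* Multiplicative (ZMod p)) : Prop :=
  S.Nonempty ∧ ∀ l ∈ S, l.Prime ∧ l ≠ p ∧ χ l ≠ 1

/-- `P 0, …, P (r - 1)` are pairwise disjoint sets of primes congruent to `1` modulo `3`, the
members of `P i` are at most `X i`, and `1 ≤ z ≤ X i`. -/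
def Boxes {r : ℕ} (P : Fin r → Finset ℕ) (X : Fin r → ℕ) (z : ℕ) : Prop :=
  1 ≤ z ∧ (∀ i, z ≤ X i) ∧ (∀ i, ∀ q ∈ P i, q.Prime ∧ q % 3 = 1 ∧ q ≤ X i) ∧
    ∀ i l, i ≠ l → Disjoint (P i) (P l)

/-- The number of the tuples `(q_0, …, q_{r-1})`, `q_i ∈ P i`, such that the set of the `q_i` has
the property `good`. -/
noncomputable def count {r : ℕ} (P : Fin r → Finset ℕ) (good : Finset ℕ → Prop) : ℝ :=
  ({q : Fin r → ℕ | (∀ i, q i ∈ P i) ∧ good (Finset.univ.image q)}.ncard : ℝ)

/-- The proportion `∏ (1 - 3 ^ (-j))`, `2 ≤ j ≤ r`. -/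
noncomputable def share (r : ℕ) : ℝ := ∏ i ∈ Finset.range (r - 1), (1 - (1 / 3 : ℝ) ^ (i + 2))

theorem result (p : ℕ) [Fact p.Prime] (hp2 : p ≠ 2) :
    (∀ (F : Type) [Field F] [NumberField F], (NoCharacter F p → BoundedTower F p) ∧
      (BoundedTower F p → ∀ s : ℕ, s ≤ p - 2 → Rigid (⊥ : Ext F) p s) ∧
      ∀ (K : Ext F) [FiniteDimensional F K] [IsGalois F K] (a : ℕ), Module.finrank F K = p ^ a →
        (∀ d e : ℕ, 1 ≤ d → (2 * d - 1) * e ≤ p - 2 → ShortAction K p d →
          Rigid (⊥ : Ext F) p ((2 * d - 1) * e) → Rigid K p e) ∧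
        (∀ r : ℕ, RankLe K p r → ShortAction K p r) ∧
        (∀ r : ℕ, RankLe K p r → 2 * r ≤ p - 1 → BoundedTower F p → Rigid K p 1)) ∧
    (∀ (S : Finset ℕ) (χ : ∀ l : ℕ, (ZMod l)ˣ →* Multiplicative (ZMod p)), Admissible S χ →
      (∃ K : Ext ℚ, CutOut S χ K) ∧ ∀ K : Ext ℚ, CutOut S χ K →
        IsGalois ℚ K ∧ Module.finrank ℚ K = p ∧
        ((p ^ (S.card - 1) : ℕ) : ℕ∞) ≤
          Set.encard {f : K.fixingSubgroup →* Multiplicative (ZMod p) | Mem f} ∧
        (FullRank S χ → ShortAction K p 1 ∧ Rigid K p (p - 2))) ∧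
    (∀ t : ℕ, 1 ≤ t → ∀ B : ℕ, ∃ (S : Finset ℕ)
      (χ : ∀ l : ℕ, (ZMod l)ˣ →* Multiplicative (ZMod p)),
        S.card = t ∧ (∀ l ∈ S, B < l) ∧ Admissible S χ ∧ FullRank S χ) ∧
    (p = 3 → ∃ C : ℝ, ∀ χ : ∀ l : ℕ, (ZMod l)ˣ →* Multiplicative (ZMod p),
      (∀ l : ℕ, l.Prime → l % 3 = 1 → χ l ≠ 1) →
      ∀ (r : ℕ) (P : Fin r → Finset ℕ) (X : Fin r → ℕ) (z : ℕ), 1 ≤ r → Boxes P X z →
        share r * ∏ i, ((P i).card : ℝ) -
            C * 3 ^ (r * r) * (z : ℝ) ^ (-(1 / 12 : ℝ)) * ∏ i, (X i : ℝ) ≤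
          count P fun S => FullRank S χ ∧ ∀ K : Ext ℚ, CutOut S χ K → Rigid K p 1) ∧
    ∀ r : ℕ, 5 / 6 ≤ share r := by
  have hp : p.Prime := Fact.out
  -- the two descriptions of the differences
  have k1 : ∀ {F : Type} [Field F] {U : Subgroup (AbsGal F)} [hN : U.Normal] (d : ℕ)
      (f : U → ZMod p), KilledBy d f → ∀ l : List (AbsGal F), l.length = d → ∀ g,
        Run7.h707.UH.Dl l f g = 0 := by
    intro F _ U hN d
    induction d with
    | zero =>
      intro f hf l hl g
      have hl0 : l = [] := List.length_eq_zero_iff.1 hl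
      rw [hl0]
      exact hf g
    | succ d ih =>
      intro f hf l hl g
      match l, hl with
      | [], hl => simp at hl
      | σ :: l, hl =>
        rw [List.length_cons, Nat.succ_inj] at hl
        rw [Run7.h707.UH.Dl_cons]
        refine ih _ (hf σ _ fun g g' hg => ?_) l hl g
        have h6 : g' = Pool.Agent.N829.TT.al U σ g := by
          apply Subtype.ext
          rw [hg, Pool.Agent.N829.TT.al_coe]
        rw [h6]
        rfl
  have k2 : ∀ {F : Type} [Field F] {U : Subgroup (AbsGal F)} [hN : U.Normal] (d : ℕ)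
      (f : U → ZMod p), (∀ l : List (AbsGal F), l.length = d → ∀ g,
        Run7.h707.UH.Dl l f g = 0) → KilledBy d f := by
    intro F _ U hN d
    induction d with
    | zero =>
      intro f hf g
      exact hf [] rfl g
    | succ d ih =>
      intro f hf σ f' hf'
      have e : f' = Run7.h707.UF.Ss σ f - f := by
        funext g
        exact hf' g (Pool.Agent.N829.TT.al U σ g) (Pool.Agent.N829.TT.al_coe σ g)
      rw [e]
      exact ih _ fun l hl g => hf (σ :: l) (by rw [List.length_cons, hl]) g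
  have hW : ∀ {F : Type} [Field F] [CharZero F] {U : Subgroup (AbsGal F)} {E : Type} [Group E]
      (f : U →* E), Unramified f ↔
        ∀ x : U, (x : AbsGal F) ∈ Run7.h707.UG.Wf (F := F) ∅ → f x = 1 := by
    intro F _ _ U E _ f
    constructor
    · rintro h x ⟨P, hP, -, hx⟩
      exact h P hP x hx
    · intro h P hP x hx
      exact h x ⟨P, hP, fun h' => h', hx⟩
  -- the passage to all of the absolute Galois group
  have toRig : ∀ (F : Type) [Field F] [CharZero F] (s : ℕ),
      Rigid (⊥ : Ext F) p s → Run7.h707.UH.Rig (AbsGal F) p (Run7.h707.UG.Wf (F := F) ∅) s := by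
    intro F _ _ s h m r hcts hur hD g
    have htop : (⊥ : Ext F).fixingSubgroup = ⊤ := IntermediateField.fixingSubgroup_bot
    have h1 := h m (r.comp (Subgroup.subtype _)) ((Run7.h707.UG.cont_of_cts r hcts).comp
      continuous_subtype_val) ((hW _).2 fun τ hτ => hur _ hτ) (Or.inl fun l hl i j => by
        have h2 := hD (l.map Subtype.val) (by rw [List.length_map, hl]) i j
        rw [List.map_map] at h2
        exact h2)
    exact h1 ⟨g, by rw [htop]; exact Subgroup.mem_top g⟩
  have main : ∀ (F : Type) [Field F] [CharZero F] (K : Ext F)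
      (a d e : ℕ), K.fixingSubgroup.Normal → K.fixingSubgroup.index = p ^ a →
      IsOpen (K.fixingSubgroup : Set (AbsGal F)) → 1 ≤ d → (2 * d - 1) * e ≤ p - 2 →
      ShortAction K p d →
        Run7.h707.UH.Rig (AbsGal F) p (Run7.h707.UG.Wf (F := F) ∅) ((2 * d - 1) * e) →
          Rigid K p e := by
    intro F _ _ K a d e hN hi ho hd1 hde hsh hR n ρ h1 h2 h3
    exact Run7.h707.UH.up_nf hp2 hd1 hde ho hi
      (fun f hf hfu l hl g => k1 d _ (hsh f ⟨hf, (hW f).2 hfu⟩) l hl g) hR h1 ((hW ρ).1 h2) h3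
  have bnd : ∀ (F : Type) [Field F] [CharZero F], BoundedTower F p →
      ∀ s, s ≤ p - 2 → Run7.h707.UH.Rig (AbsGal F) p (Run7.h707.UG.Wf (F := F) ∅) s := by
    rintro F _ _ ⟨b, hb⟩ s hs
    refine Run7.h707.UH.rig_of_bounded hp2 (b := b) ?_ hs
    intro N hN ho hpg hW1
    refine hb N hN ho hpg fun P hP τ hτ => hW1 τ ?_
    exact ⟨P, hP, fun h' => h', hτ⟩
  have noc : ∀ (F : Type) [Field F] [CharZero F], NoCharacter F p → BoundedTower F p := by
    intro F _ _ hno
    refine ⟨0, fun N hN ho hpg hW' σ => ?_⟩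
    have h1 : N = ⊤ := Run7.h707.UF.noquot (W := Run7.h707.UG.Wf (F := F) ∅) (fun f hf hfu g => by
      exact hno (f.comp (Subgroup.subtype ⊤)) ⟨hf.preimage continuous_subtype_val,
        (hW _).2 fun τ hτ => hfu _ hτ⟩ ⟨g, Subgroup.mem_top g⟩) N ho hpg (by
      rintro x ⟨P, hP, -, hx⟩
      exact hW' P hP x hx)
    rw [h1]
    exact Subgroup.mem_top _
  have botR : ∀ (F : Type) [Field F] [CharZero F] (s : ℕ), s ≤ p - 2 →
      Run7.h707.UH.Rig (AbsGal F) p (Run7.h707.UG.Wf (F := F) ∅) s →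
        Rigid (⊥ : Ext F) p s := by
    intro F _ _ s hs hR
    have htop : (⊥ : Ext F).fixingSubgroup = ⊤ := IntermediateField.fixingSubgroup_bot
    refine main F ⊥ 0 1 s (by rw [htop]; infer_instance) (by rw [htop]; simp) (by
      rw [htop]; exact isOpen_univ) le_rfl (by omega) ?_ (by
      rw [show (2 * 1 - 1) * s = s by omega]; exact hR)
    intro f _ σ f' hf' g
    have hσ : σ ∈ (⊥ : Ext F).fixingSubgroup := by rw [htop]; exact Subgroup.mem_top σ
    have h1 := hf' g (⟨σ, hσ⟩ * g * ⟨σ, hσ⟩⁻¹) rfl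
    rw [h1]
    show Multiplicative.toAdd (f (⟨σ, hσ⟩ * g * ⟨σ, hσ⟩⁻¹)) - Multiplicative.toAdd (f g) = 0
    have e : f (⟨σ, hσ⟩ * g * ⟨σ, hσ⟩⁻¹) = f g := by
      rw [map_mul, map_mul, map_inv, mul_comm (f ⟨σ, hσ⟩), mul_inv_cancel_right]
    rw [e, sub_self]
  -- divisibility
  have hdiv : ∀ (l : ℕ) (χ : (ZMod l)ˣ →* Multiplicative (ZMod p)), l.Prime → χ ≠ 1 →
      p ∣ l - 1 ∧ ∃ x, χ x ≠ 1 := by
    intro l χ hl hχ
    have hx : ∃ x, χ x ≠ 1 := by
      by_contra hcon
      push Not at hcon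
      exact hχ (MonoidHom.ext hcon)
    refine ⟨?_, hx⟩
    obtain ⟨x, hx⟩ := hx
    by_contra hnd
    have : Fact l.Prime := ⟨hl⟩
    have h1 : χ x ^ (l - 1) = 1 := by
      rw [← map_pow, ← ZMod.card_units l, pow_card_eq_one, map_one]
    have h2 : χ x ^ p = 1 := by
      apply Multiplicative.toAdd.injective
      rw [toAdd_pow, toAdd_one, nsmul_eq_mul, CharP.cast_eq_zero, zero_mul]
    apply hx
    have h3 : Nat.Coprime p (l - 1) := (hp.coprime_iff_not_dvd).2 hnd
    have h4 : orderOf (χ x) ∣ Nat.gcd p (l - 1) :=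
      Nat.dvd_gcd (orderOf_dvd_of_pow_eq_one h2) (orderOf_dvd_of_pow_eq_one h1)
    rw [h3] at h4
    exact orderOf_eq_one_iff.1 (Nat.dvd_one.1 h4)
  have hfull : ∀ (S : Finset ℕ) (χ : ∀ l : ℕ, (ZMod l)ˣ →* Multiplicative (ZMod p)),
      FullRank S χ ↔ ∀ x : ℕ → ZMod p, (∀ l ∈ S, ∑ j ∈ S.erase l,
        Run7.h707.UF.link χ j l * (x j - x l) = 0) → ∃ c, ∀ l ∈ S, x l = c := fun S χ => Iff.rfl
  have two : ∀ (S : Finset ℕ) (χ : ∀ l : ℕ, (ZMod l)ˣ →* Multiplicative (ZMod p)),
      Admissible S χ → (∃ K : Ext ℚ, CutOut S χ K) ∧ ∀ K : Ext ℚ, CutOut S χ K →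
        IsGalois ℚ K ∧ Module.finrank ℚ K = p ∧
        ((p ^ (S.card - 1) : ℕ) : ℕ∞) ≤
          Set.encard {f : K.fixingSubgroup →* Multiplicative (ZMod p) | Mem f} ∧
        (FullRank S χ → ShortAction K p 1 ∧ Rigid K p (p - 2)) := by
    intro S χ hA
    have hS : ∀ l ∈ S, l.Prime ∧ l ≠ p := fun l hl => ⟨(hA.2 l hl).1, (hA.2 l hl).2.1⟩
    have hS1 : ∀ l ∈ S, p ∣ l - 1 := fun l hl => (hdiv l (χ l) (hA.2 l hl).1 (hA.2 l hl).2.2).1
    have hχ : ∀ l ∈ S, p ∣ l - 1 → ∃ x, χ l x ≠ 1 := fun l hl _ =>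
      (hdiv l (χ l) (hA.2 l hl).1 (hA.2 l hl).2.2).2
    refine ⟨Run7.h707.UF.cut_ex hp2 hS hS1 hχ, fun K hK => ?_⟩
    obtain ⟨h1, h2, h3, h4⟩ := Run7.h707.UF.cut_main hp2 hS hS1 hχ hA.1 K hK
    have hwall : ∀ f : K.fixingSubgroup →* Multiplicative (ZMod p), Unramified f ↔
        ∀ x : K.fixingSubgroup, (x : AbsGal ℚ) ∈ Run7.h707.UF.Wall → f x = 1 := by
      intro f
      exact ⟨fun h x ⟨P, hP, hx⟩ => h P hP x hx, fun h P hP x hx => h x ⟨P, hP, hx⟩⟩
    have hfr : Module.finrank ℚ K = p := by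
      rw [← h2]
      exact IntermediateField.finrank_eq_fixingSubgroup_index _ K
    have hfd : FiniteDimensional ℚ K := Module.finite_of_finrank_pos (by rw [hfr]; exact hp.pos)
    have hG : IsGalois ℚ K := (InfiniteGalois.normal_iff_isGalois K).1 h1
    refine ⟨hG, hfr, ?_, fun hR => ?_⟩
    · refine h3.trans (Set.encard_le_encard ?_)
      rintro f ⟨h5, h6⟩
      exact ⟨h5, (hwall f).2 h6⟩
    · have htr : ShortAction K p 1 := by
        intro f hf σ f' hf' g
        have h5 := h4 ((hfull S χ).1 hR) f hf.1 ((hwall f).1 hf.2) σ g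
        have h6 := hf' g (Pool.Agent.N829.TT.al K.fixingSubgroup σ g)
          (Pool.Agent.N829.TT.al_coe σ g)
        rw [h6]
        show Multiplicative.toAdd (f (Pool.Agent.N829.TT.al K.fixingSubgroup σ g)) -
          Multiplicative.toAdd (f g) = 0
        rw [h5, sub_self]
      refine ⟨htr, main ℚ K 1 1 (p - 2) h1 (by rw [h2, pow_one])
        (IntermediateField.fixingSubgroup_isOpen K) le_rfl (by omega) htr
        (bnd ℚ (noc ℚ ?_) _ (by omega))⟩
      intro f hf g
      have h7 := Run7.h707.UF.no_char' hp2 (f.comp Subgroup.topEquiv.symm.toMonoidHom) ?_ ?_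
        (g : AbsGal ℚ)
      · exact h7
      · exact hf.1.preimage (continuous_id.subtype_mk fun _ => Subgroup.mem_top _)
      · rintro x ⟨P, hP, hx⟩
        exact hf.2 P hP ⟨x, Subgroup.mem_top x⟩ hx
  refine ⟨?_, two, ?_, ?_, fun r => Run7.h707.UF.Dn.share_ge (r - 1)⟩
  · intro F _ _
    refine ⟨noc F, fun h s hs => botR F s hs (bnd F h s hs), ?_⟩
    intro K _ _ a ha
    have hN : K.fixingSubgroup.Normal := (InfiniteGalois.normal_iff_isGalois K).2 inferInstance
    have hi : K.fixingSubgroup.index = p ^ a := by rw [Run7.h707.UF.index_eq, ha]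
    have ho := IntermediateField.fixingSubgroup_isOpen K
    have hrk : ∀ r : ℕ, RankLe K p r → ShortAction K p r := by
      intro r hr f hf
      refine k2 r _ fun l hl g => ?_
      refine Run7.h707.UH.kill_ch (Run7.h707.UG.Wf_conj (F := F) ∅) (a := a)
        (fun σ => hi ▸ K.fixingSubgroup.pow_index_mem σ) (le_trans (Set.encard_le_encard ?_) hr)
        f hf.1 ((hW f).1 hf.2) l hl g
      rintro f ⟨h1, h2⟩
      exact ⟨h1, (hW f).2 h2⟩
    refine ⟨fun d e hd1 hde hsh hR => main F K a d e hN hi ho hd1 hde hsh (toRig F _ hR), hrk, ?_⟩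
    intro r hr hrp hB
    have h3p : 3 ≤ p := by
      have := hp.two_le
      omega
    have hr' : RankLe K p (max r 1) := by
      refine le_trans hr ?_
      exact_mod_cast Nat.pow_le_pow_right hp.pos (le_max_left r 1)
    have hb1 : (2 * max r 1 - 1) * 1 ≤ p - 2 := by omega
    exact main F K a (max r 1) 1 hN hi ho (le_max_right r 1) hb1 (hrk _ hr') (bnd F hB _ hb1)
  · intro t ht B
    choose χ hχ using fun j => Run7.h707.UF.ex_chi p j
    obtain ⟨S, hSc, hSp, hred⟩ := Run7.h707.UF.ex_sets (χ := χ) (fun j hj hj1 => hχ j hj hj1) B t ht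
    have hne : S.Nonempty := Finset.card_pos.1 (by omega)
    have hS : ∀ l ∈ S, l.Prime ∧ l ≠ p := fun l hl => ⟨(hSp l hl).1, by
      rintro rfl
      have h1 := (hSp l hl).1.two_le
      have := Nat.le_of_dvd (by omega) (hSp l hl).2.1
      omega⟩
    have hS1 : ∀ l ∈ S, p ∣ l - 1 := fun l hl => (hSp l hl).2.1
    refine ⟨S, χ, hSc, fun l hl => (hSp l hl).2.2, ⟨hne, fun l hl => ⟨(hS l hl).1, (hS l hl).2,
      fun h => ?_⟩⟩, (hfull S χ).2 fun x hx => ?_⟩
    · obtain ⟨x, hx⟩ := hχ l (hS l hl).1 (hS1 l hl)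
      exact hx (by rw [h]; rfl)
    · obtain ⟨c, hc⟩ := hred x fun l hl => by
        simp only [one_mul, mul_one]
        exact hx l hl
      exact ⟨c, fun l hl => by rw [hc l hl, mul_one]⟩
  · intro h3
    subst h3
    obtain ⟨C, hC1, hC⟩ := Run7.h707.UF.Dn.density
    refine ⟨C, fun χ hχ r P X z hr hB => ?_⟩
    obtain ⟨m, rfl⟩ : ∃ m, r = m + 1 := ⟨r - 1, by omega⟩
    have h1 := hC χ (fun l hl hl3 => (hdiv l (χ l) hl (hχ l hl hl3)).2) m P X z
      ⟨hB.1, hB.2.1, hB.2.2.1, hB.2.2.2⟩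
      (fun q => (fun S => FullRank S χ ∧ ∀ K : Ext ℚ, CutOut S χ K → Rigid K 3 1)
        (Finset.univ.image q)) (fun q hq hred => ?_)
    · have e1 : ((3 : ℝ) ^ (m + 1) * (3 ^ ((m + 1) * m) *
          (C * (z : ℝ) ^ (-(1 / 12 : ℝ)) * ∏ i, (X i : ℝ)))) =
          C * 3 ^ ((m + 1) * (m + 1)) * (z : ℝ) ^ (-(1 / 12 : ℝ)) * ∏ i, (X i : ℝ) := by
        rw [mul_add (m + 1), mul_one, pow_add]
        ring
      rw [e1] at h1
      refine le_trans h1 (le_of_eq ?_)
      unfold count
      rw [← Set.ncard_coe_finset]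
      congr 2
      ext q
      simp
    · have hq' : ∀ l ∈ Finset.univ.image q, l.Prime ∧ l % 3 = 1 := by
        intro l hl
        obtain ⟨i, -, rfl⟩ := Finset.mem_image.1 hl
        have h5 := hB.2.2.1 i _ (Fintype.mem_piFinset.1 hq i)
        exact ⟨h5.1, h5.2.1⟩
      have hA : Admissible (p := 3) (Finset.univ.image q) χ := by
        refine ⟨⟨q 0, Finset.mem_image_of_mem q (Finset.mem_univ 0)⟩, fun l hl => ?_⟩
        obtain ⟨h5, h6⟩ := hq' l hl
        exact ⟨h5, fun h => by omega, hχ l h5 h6⟩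
      have hF : FullRank (Finset.univ.image q) χ := hred
      exact ⟨hF, fun K hK => (((two _ χ hA).2 K hK).2.2.2 hF).2⟩

end Pool.Agent.Results.MP_ca71b5_nt.TrivialActionExtensions
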